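import Pool.Agent.K4H25.VJ.V4

/-!
# Canonical degrees of curves on the blow-up of the plane at generic points

Let `k` be an algebraically closed field of characteristic zero, for instance `ℂ`, and `X` the blow-up
of the projective plane over `k` at `r` generic points `p 1, ..., p r`: in an affine chart with the
coordinates `x, y`, `p j = (a j, b j)` and the `2 r` elements `a j`, `b j` of `k` are algebraically
independent over `ℚ`. Let `E j` be the exceptional curves. Let `C` be a smooth projective curve of genus
`g`, with function field `K`, and `f : C → X` a nonconstant map, for example the normalisation of a
curve on `X`, such that `f(C)` is not an exceptional curve and its image in the plane is not a line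
`x = c` or `y = c`. For a point `P` of `C` let `m j P` be the multiplicity of the curve at `p j` in the
branch `P`, the minimum of the orders at `P` of `x - a j` and `y - b j` if both are positive; this is the
intersection number of `C` with `E j` at `P`. Let `s j` be the number of points of `C` over `p j` (the
number of branches of the curve at `p j`), so `s j ≤ C.E j = ∑ m j P`.

**Theorem.** `K_X.C ≤ 2 (g - 1) + s i` for all `i` such that `C` meets `E i`.

So the inequality of Vojta's conjecture `K_X.C ≤ (4 + ε) (g - 1) + B` is true, even with the constant `2` in
place of `4 + ε`, for all curves `C` which have at most `B` branches at one of the points `p i` through which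
they pass, e.g. if `0 < C.E i ≤ B` for some `i`; and it is true with the constant `4`, for all curves which
have at most `2 (g - 1) + B` branches at one of these points. (If `C` does not pass through any of the points
then `K_X.C < 0`.) In particular a curve with `K_X.C > 4 (g - 1) + B` has more than `2 (g - 1) + B` branches at
each of the generic points which it meets. For `r ≤ 9` the divisor `-K_X` is effective; for `r ≥ 10` it
is not, and Vojta's inequality is not known. (For the inequality with `2 g - 2` and `s i` it is essential
that the points are generic: all curves are considered, and not only a general member of a linear system.)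

Proof. Let `D` be a derivation of the field `k` which is zero at all `a j`, `b j` with `j ≠ i`, and
nonzero at `a i` (or `b i`). It extends to a derivation `δ` of `K`. The differential
`ν = δ(x) dy - δ(y) dx` on `C` does not depend on the choice of `δ`; it describes the first order
deformation of the map `C → ℙ²` when the point `p i` is moved and all the other points are fixed. At a
point `P` of `C` one may choose `δ` with `δ(π) = 0`, where `π` is a uniformizer. Then `δ` preserves the
powers of the maximal ideal at `P`. It follows that `ν` vanishes with order at least `m j P` at the points
over `p j`, `j ≠ i`, as `δ(x) = δ(x - a j)`; with order at least `m i P - 1` at the points over `p i`; and has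
poles of order at most three times the intersection number with the line at infinity. If `ν ≠ 0` then the
inequality follows, since the degree of `ν` is `2 g - 2`. Suppose that `ν = 0` for the derivations `∂/∂a_i`
and `∂/∂b_i`. Then they have extensions to `K` which are zero at `x` and `y`. Apply them to the relations
`∑ g_{uv} (x - a i) ^ u (y - b i) ^ v = 0`: by induction on `u + v` all coefficients of all relations are
zero, as `C` passes through `p i`. This is absurd.

A curve with function field `K` over `k` (`IsFF k K`) is given by its places `Place k K`, its points;
`canDeg k K = 2 g - 2` is the degree of its canonical divisor (`Pool.Agent.W603.LV.canDeg`: minus the sum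
over all places of the orders of a nonzero vector field).
-/

set_option autoImplicit false

open FF Pool.Agent.W603.LV

namespace Pool.Agent.Results.MP_79ab39_ag.GenericBlowups

variable {k K : Type} [Field k] [Field K] [Algebra k K]

/-- The intersection number at the point `P` of the curve, mapped to the plane by `(1 : x : y)`,
with the line at infinity: the largest pole order of `x` and `y`. -/
def lineOrder (x y : K) (P : Place k K) : ℤ := max 0 (max (-P.ord x) (-P.ord y))

open scoped Classical in
/-- The intersection number at the point `P` of the curve with the exceptional curve over `(a, b)`:
the minimum of the orders of `x - a` and `y - b` if both are positive, and `0` otherwise. -/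
noncomputable def multiplicity (x y : K) (a b : k) (P : Place k K) : ℤ :=
  if 0 < P.ord (x - algebraMap k K a) ∧ 0 < P.ord (y - algebraMap k K b) then
    min (P.ord (x - algebraMap k K a)) (P.ord (y - algebraMap k K b)) else 0

/-- The points of the curve over the point `(a, b)` of the plane. -/
def pointsOver (x y : K) (a b : k) : Set (Place k K) :=
  {P | 0 < P.ord (x - algebraMap k K a) ∧ 0 < P.ord (y - algebraMap k K b)}

/-- `K_X.C`, where `K_X = -3 H + ∑ E j`. -/
noncomputable def canonicalDegree {r : ℕ} (a b : Fin r → k) (x y : K) : ℤ :=
  ∑ᶠ P : Place k K, (-3 * lineOrder x y P + ∑ j, multiplicity x y (a j) (b j) P)

/-- **Canonical degrees of curves on the blow-up of the plane at generic points.** Let the coordinates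
`a j`, `b j` of the points `p j` be algebraically independent over `ℚ`, and let `C` be a smooth
projective curve with the function field `K` over `k` and a map to `X`, given by the functions `x` and
`y`, whose image is not contained in a line `x = c` or `y = c`. If there are points of `C` over `p i` then
`K_X.C ≤ 2 g - 2 + s i`, where `s i` is the number of these points. -/
theorem result [CharZero k] [IsAlgClosed k] [IsFF k K] {r : ℕ} {a b : Fin r → k}
    (hgen : AlgebraicIndependent ℚ (Sum.elim a b : Fin r ⊕ Fin r → k)) {x y : K}
    (hx : Transcendental k x) (_hy : Transcendental k y) (i : Fin r)
    (hi : (pointsOver x y (a i) (b i) : Set (Place k K)).Nonempty) :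
    canonicalDegree a b x y ≤
      canDeg k K + (pointsOver x y (a i) (b i) : Set (Place k K)).ncard := by
  classical
  have h := Pool.Agent.K4H25.VJ.main hgen (y := y) hx i hi
  have h1 : canonicalDegree a b x y = ∑ᶠ P : Place k K, (-3 * Pool.Agent.K4H25.VJ.pole x y P +
      ∑ j, Pool.Agent.K4H25.VJ.mult x y (a j) (b j) P) := by
    unfold canonicalDegree
    congr 1
  rw [h1]
  exact h

end Pool.Agent.Results.MP_79ab39_ag.GenericBlowups
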