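import Pool.Agent.K4H25.VJ.V7

/-!
# Canonical degrees of curves on blow-ups of products of two hyperelliptic curves at generic points

Let `k` be an algebraically closed field of characteristic zero, for instance `ℂ`, and `k₀` a subfield
of `k`. Let `C₁ : w ^ 2 = ∏_{e ∈ R₁} (x - e)` and `C₂ : z ^ 2 = ∏_{e ∈ R₂} (y - e)` be the hyperelliptic
curves of genus `g₁` and `g₂` which are ramified over the sets `R₁` and `R₂` of `2 g₁ + 2` and
`2 g₂ + 2` elements of `k₀`. (Here `0` and `1` are allowed.) Let `S = C₁ × C₂`, let
`q j = ((a j, u j), (b j, v j))`, `j = 1, ..., r`, be generic points of `S`, that is, the `2 r` elements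
`a j`, `b j` of `k` are algebraically independent over `k₀`, and let `X` be the blow-up of `S` at
these points.

**Theorem.** Let `C` be a smooth projective curve of genus `g` over `k` and `f : C → X` a map such that
the maps to `C₁` and `C₂` are not constant, for example the normalisation of any curve on `X` other than
the exceptional curves and the fibres of the two projections. Let `s i` be the number of points of `C` over
`q i`. Then `K_X.C ≤ 2 (g - 1) + s i` for all `i` such that `C` meets the exceptional curve over `q i`. If
`g₁ ≥ 2` then `K_X.C ≤ 4 (g - 1)` for all `C`.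

So the inequality `K_X.C ≤ (4 + ε) (g(C) - 1) + B` of Vojta's conjecture is true for `X`, with `ε = 0`,
for any number `r` of points, if `g₁ ≥ 2` (or `g₂ ≥ 2`); and for all `g₁`, `g₂` it is true for the curves
which have at most `2 (g - 1) + B` branches at one of the points which they meet. (The exceptional curves and the fibres have bounded genus and
bounded `K_X.C`.) For the product `S` itself the inequality follows from the Riemann-Hurwitz formula;
the theorem says that the points which are blown up do not change it, although `K_X.C` is larger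
than `K_S.C` by the sum of the multiplicities of `f(C)` at the points `q j`. Note that
`c₁(X) ^ 2 = 8 (g₁ - 1) (g₂ - 1) - r` is smaller than `c₂(X) = 4 (g₁ - 1) (g₂ - 1) + r` for large `r`.

Proof. If `C` does not meet the exceptional curves and `g₁ ≥ 2` this is the Riemann-Hurwitz formula. Suppose
that `C` meets the exceptional curve over `q i`. Let `D` be a derivation of `k` which is zero on `k₀` and at all `a j`,
`b j` with `j ≠ i`, and nonzero at `a i` (or `b i`). It extends to a derivation `δ` of the function field
`K` of `C`. The differential `ν = (δ(x) dy - δ(y) dx) / (w z)` does not depend on the choice of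
`δ`. At a point `P` of `C` one may choose `δ` with `δ(π) = 0`, where `π` is a uniformizer; then `δ` preserves
the powers of the maximal ideal at `P`. As `D` is zero at the branch points, `δ(x) / w` and `δ(y) / z` are
regular at `P`, and `dx / w`, `dy / z` vanish there with the order at least `g₁ - 1` times the pole order
of `x` and `g₂ - 1` times the pole order of `y`, which is also true for `δ(x) / w` and `δ(y) / z`. So `ν` has
no poles, its zeros contain the pull back of the canonical divisor of `S`, and it vanishes with
order at least the multiplicity of `C` at the points over `q j`, `j ≠ i`, and at least the multiplicity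
minus one at the points over `q i`. If `ν ≠ 0` it follows that `K_X.C ≤ 2 g - 2 + s i`, and if `g₁ ≥ 2` then
`s i` is at most the degree of the function `x`, which is at most `2 g - 2` by the Riemann-Hurwitz formula
for `C → C₁`. Suppose that `ν = 0` for both
derivations `∂/∂a_i` and `∂/∂b_i`. Then they have extensions to `K` which are zero at `x` and `y`. Apply
them to the relations `∑ g_{uv} (x - a i) ^ u (y - b i) ^ v = 0`: by induction on `u + v` all coefficients
of all relations are zero, as `C` passes through `(a i, b i)`. This is absurd.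

A curve with function field `K` over `k` (`IsFF k K`) is given by its places `Place k K`, its points;
`canDeg k K = 2 g - 2` is the degree of its canonical divisor (`Pool.Agent.W603.LV.canDeg`: minus the sum
over all places of the orders of a nonzero vector field). The maps from `C` to `S` correspond to the
functions `x, w, y, z` in `K` with `w ^ 2 = ∏_{e ∈ R₁} (x - e)` and `z ^ 2 = ∏_{e ∈ R₂} (y - e)`.
-/

set_option autoImplicit false

open FF Pool.Agent.W603.LV

namespace Pool.Agent.Results.MP_79ab39_ag.ProductBlowups

variable {k K : Type} [Field k] [Field K] [Algebra k K]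

/-- The pole order of the function `x` at the point `P` of the curve. The sum over all `P` is the degree
of `x`, that is twice the degree of the map to the hyperelliptic curve `C₁`; so the sum of
`(g₁ - 1) * poleOrder x P` is the degree of the pull back of the canonical divisor of `C₁`. -/
def poleOrder (x : K) (P : Place k K) : ℤ := max 0 (-P.ord x)

open scoped Classical in
/-- The intersection number at the point `P` of the curve `C`, mapped to `S = C₁ × C₂` by `(x, w)`
and `(y, z)`, with the exceptional curve over the point `((a, u), (b, v))` of `S`: the minimum of the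
orders of `x - a` and `y - b` at `P` if `P` is mapped to this point, and `0` otherwise. (`x - a` and `y - b`
are local coordinates of `S` at the point if `u` and `v` are not zero.) -/
noncomputable def multiplicity (x w y z : K) (a u b v : k) (P : Place k K) : ℤ :=
  if 0 < P.ord (x - algebraMap k K a) ∧ 0 < P.ord (w - algebraMap k K u) ∧
      0 < P.ord (y - algebraMap k K b) ∧ 0 < P.ord (z - algebraMap k K v) then
    min (P.ord (x - algebraMap k K a)) (P.ord (y - algebraMap k K b)) else 0

/-- The points of the curve over the point `((a, u), (b, v))` of `S`. -/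
def pointsOver (x w y z : K) (a u b v : k) : Set (Place k K) :=
  {P | 0 < P.ord (x - algebraMap k K a) ∧ 0 < P.ord (w - algebraMap k K u) ∧
    0 < P.ord (y - algebraMap k K b) ∧ 0 < P.ord (z - algebraMap k K v)}

/-- `K_X.C`, where `K_X` is the sum of the pull backs of the canonical divisors of `C₁` and `C₂` and of
the exceptional curves. -/
noncomputable def canonicalDegree (g₁ g₂ : ℕ) {r : ℕ} (a u b v : Fin r → k) (x w y z : K) : ℤ :=
  ∑ᶠ P : Place k K, ((g₁ - 1) * poleOrder x P + (g₂ - 1) * poleOrder y P +
    ∑ j, multiplicity x w y z (a j) (u j) (b j) (v j) P)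

/-- **Canonical degrees of curves on blow-ups of products of two hyperelliptic curves at generic points.** Let
`R₁` and `R₂` be sets of `2 g₁ + 2` and `2 g₂ + 2` elements of the subfield `k₀`, let the points
`((a j, u j), (b j, v j))` of `S = C₁ × C₂` be such that the `a j` and `b j` are algebraically independent
over `k₀`, and let `C` be a smooth projective curve with the function field `K` and a map to `S`, given by
the nonconstant functions `x`, `y` and the functions `w`, `z`. Then `K_X.C ≤ 2 g - 2 + s i` for all `i`
such that the number `s i` of points of `C` over the `i`-th point is not zero; and if `g₁ ≥ 2` then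
`K_X.C ≤ 2 (2 g - 2) = 4 (g - 1)` for all `C`. -/
theorem result {k₀ : Type} [Field k₀] [CharZero k₀] [Algebra k₀ k] [CharZero k] [IsAlgClosed k]
    [IsFF k K] {g₁ g₂ : ℕ} {R₁ R₂ : Finset k} (hR₁ : R₁.card = 2 * g₁ + 2)
    (hR₂ : R₂.card = 2 * g₂ + 2) (hk₁ : ∀ e ∈ R₁, ∃ c : k₀, algebraMap k₀ k c = e)
    (hk₂ : ∀ e ∈ R₂, ∃ c : k₀, algebraMap k₀ k c = e) {r : ℕ} {a u b v : Fin r → k}
    (_hu : ∀ j, u j ^ 2 = ∏ e ∈ R₁, (a j - e)) (_hv : ∀ j, v j ^ 2 = ∏ e ∈ R₂, (b j - e))
    (hgen : AlgebraicIndependent k₀ (Sum.elim a b : Fin r ⊕ Fin r → k)) {x w y z : K}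
    (hx : Transcendental k x) (hw : w ^ 2 = ∏ e ∈ R₁, (x - algebraMap k K e))
    (hy : Transcendental k y) (hz : z ^ 2 = ∏ e ∈ R₂, (y - algebraMap k K e)) :
    (∀ i, (pointsOver x w y z (a i) (u i) (b i) (v i) : Set (Place k K)).Nonempty →
      canonicalDegree g₁ g₂ a u b v x w y z ≤
        canDeg k K + (pointsOver x w y z (a i) (u i) (b i) (v i) : Set (Place k K)).ncard) ∧
    (2 ≤ g₁ → canonicalDegree g₁ g₂ a u b v x w y z ≤ 2 * canDeg k K) := by
  classical
  have hmul1 : ∀ (j : Fin r) (P : Place k K), P ∈ Pool.Agent.K4H25.VJ.ovr x y (a j) (b j) →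
      1 ≤ Pool.Agent.K4H25.VJ.mult x y (a j) (b j) P := by
    intro j P h1
    have h0 : Pool.Agent.K4H25.VJ.mult x y (a j) (b j) P = min (P.ord (x - algebraMap k K (a j)))
        (P.ord (y - algebraMap k K (b j))) := if_pos h1
    rw [h0]
    have h2 : (0 : ℤ) < P.ord (x - algebraMap k K (a j)) := h1.1
    have h3 : (0 : ℤ) < P.ord (y - algebraMap k K (b j)) := h1.2
    omega
  have hmul0 : ∀ (j : Fin r) (P : Place k K), 0 ≤ Pool.Agent.K4H25.VJ.mult x y (a j) (b j) P := by
    intro j P
    by_cases h1 : P ∈ Pool.Agent.K4H25.VJ.ovr x y (a j) (b j)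
    · have := hmul1 j P h1
      omega
    · have h0 : Pool.Agent.K4H25.VJ.mult x y (a j) (b j) P = 0 := if_neg h1
      rw [h0]
  have hle : ∀ (j : Fin r) (P : Place k K), multiplicity x w y z (a j) (u j) (b j) (v j) P ≤
      Pool.Agent.K4H25.VJ.mult x y (a j) (b j) P := by
    intro j P
    unfold multiplicity
    split_ifs with h1
    · unfold Pool.Agent.K4H25.VJ.mult
      rw [if_pos ⟨h1.1, h1.2.2.1⟩]
    · exact hmul0 j P
  have hfin : ∀ m : Fin r → Place k K → ℤ,
      (∀ j P, P.ord (x - algebraMap k K (a j)) = 0 → m j P = 0) →
      (Function.support fun P : Place k K => (((g₁ : ℤ) - 1) * poleOrder x P +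
        (g₂ - 1) * poleOrder y P + ∑ j, m j P)).Finite := by
    intro m hm
    refine (((Pool.Agent.K4H25.VJ.po_finite (k := k) x).union
      (Pool.Agent.K4H25.VJ.po_finite (k := k) y)).union
      (Set.finite_iUnion fun j => finite_support (k := k) (x - algebraMap k K (a j)))).subset
      fun P hP => ?_
    by_contra hcon
    simp only [Set.mem_union, Set.mem_iUnion, Set.mem_ofPred_eq, not_or, not_exists,
      not_not] at hcon
    apply hP
    have h1 : poleOrder x P = 0 := hcon.1.1
    have h2 : poleOrder y P = 0 := hcon.1.2
    have h3 : ∀ j, m j P = 0 := fun j => hm j P (hcon.2 j)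
    change ((g₁ : ℤ) - 1) * poleOrder x P + (g₂ - 1) * poleOrder y P + ∑ j, m j P = 0
    rw [h1, h2, Finset.sum_eq_zero fun j _ => h3 j]
    simp
  have hf1 := hfin (fun j P => multiplicity x w y z (a j) (u j) (b j) (v j) P) fun j P h0 => by
    unfold multiplicity
    rw [if_neg fun h1 => h1.1.ne' h0]
  have hf2 := hfin (fun j P => Pool.Agent.K4H25.VJ.mult x y (a j) (b j) P) fun j P h0 => by
    unfold Pool.Agent.K4H25.VJ.mult
    rw [if_neg fun h1 => h1.1.ne' h0]
  refine ⟨fun i hi => ?_, fun hg => ?_⟩
  · have hsub : (pointsOver x w y z (a i) (u i) (b i) (v i) : Set (Place k K)) ⊆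
        Pool.Agent.K4H25.VJ.ovr x y (a i) (b i) := fun P hP => ⟨hP.1, hP.2.2.1⟩
    have h := Pool.Agent.K4H25.VJ.main1 hgen (g := g₁) (g' := g₂) (x := x) (w := w) (y := y)
      (w' := z) ⟨hR₁, hw, hx⟩ ⟨hR₂, hz, hy⟩ hk₁ hk₂ i (hi.mono hsub)
    have hfo : (Pool.Agent.K4H25.VJ.ovr x y (a i) (b i) : Set (Place k K)).Finite :=
      (finite_support (k := k) (x - algebraMap k K (a i))).subset fun P hP => hP.1.ne'
    have hfo' := hfo.subset hsub
    rw [← Pool.Agent.K4H25.VJ.finsum_ind hfo] at h
    rw [← Pool.Agent.K4H25.VJ.finsum_ind hfo']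
    have hi1 : (Function.support fun P : Place k K =>
        if P ∈ Pool.Agent.K4H25.VJ.ovr x y (a i) (b i) then (1 : ℤ) else 0).Finite :=
      hfo.subset fun P hP => by
        by_contra hcon
        exact hP (if_neg hcon)
    have hi2 : (Function.support fun P : Place k K =>
        if P ∈ pointsOver x w y z (a i) (u i) (b i) (v i) then (1 : ℤ) else 0).Finite :=
      hfo'.subset fun P hP => by
        by_contra hcon
        exact hP (if_neg hcon)
    have h3 := Pool.Agent.K4H25.VJ.finsum_mono (f := fun P : Place k K =>
        ((((g₁ : ℤ) - 1) * poleOrder x P + (g₂ - 1) * poleOrder y P +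
          ∑ j, multiplicity x w y z (a j) (u j) (b j) (v j) P)) +
        (if P ∈ Pool.Agent.K4H25.VJ.ovr x y (a i) (b i) then (1 : ℤ) else 0))
      (f' := fun P : Place k K => ((((g₁ : ℤ) - 1) * poleOrder x P + (g₂ - 1) * poleOrder y P +
          ∑ j, Pool.Agent.K4H25.VJ.mult x y (a j) (b j) P)) +
        (if P ∈ pointsOver x w y z (a i) (u i) (b i) (v i) then (1 : ℤ) else 0))
      ((hf1.union hi1).subset fun P hP => by
        by_contra hcon
        simp only [Set.mem_union, Function.mem_support, not_or, not_not] at hcon
        apply hP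
        change _ + _ = (0 : ℤ)
        rw [hcon.1, hcon.2, add_zero])
      ((hf2.union hi2).subset fun P hP => by
        by_contra hcon
        simp only [Set.mem_union, Function.mem_support, not_or, not_not] at hcon
        apply hP
        change _ + _ = (0 : ℤ)
        rw [hcon.1, hcon.2, add_zero])
      fun P => by
        by_cases hP : P ∈ Pool.Agent.K4H25.VJ.ovr x y (a i) (b i)
        · by_cases hP' : P ∈ pointsOver x w y z (a i) (u i) (b i) (v i)
          · rw [if_pos hP, if_pos hP']
            exact add_le_add (add_le_add le_rfl (Finset.sum_le_sum fun j _ => hle j P)) le_rfl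
          · rw [if_pos hP, if_neg hP']
            have h4 : multiplicity x w y z (a i) (u i) (b i) (v i) P = 0 := if_neg hP'
            have h5 := hmul1 i P hP
            have h6 : ∑ j, multiplicity x w y z (a j) (u j) (b j) (v j) P + 1 ≤
                ∑ j, Pool.Agent.K4H25.VJ.mult x y (a j) (b j) P := by
              have h7 : ∑ j, multiplicity x w y z (a j) (u j) (b j) (v j) P <
                  ∑ j, Pool.Agent.K4H25.VJ.mult x y (a j) (b j) P :=
                Finset.sum_lt_sum (fun j _ => hle j P) ⟨i, Finset.mem_univ i, by omega⟩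
              omega
            linarith
        · have hP' : P ∉ pointsOver x w y z (a i) (u i) (b i) (v i) := fun h => hP (hsub h)
          rw [if_neg hP, if_neg hP']
          exact add_le_add (add_le_add le_rfl (Finset.sum_le_sum fun j _ => hle j P)) le_rfl
    rw [finsum_add_distrib hf1 hi1, finsum_add_distrib hf2 hi2] at h3
    have h8 : canonicalDegree g₁ g₂ a u b v x w y z = ∑ᶠ P : Place k K,
        ((((g₁ : ℤ) - 1) * poleOrder x P + (g₂ - 1) * poleOrder y P +
          ∑ j, multiplicity x w y z (a j) (u j) (b j) (v j) P)) := rfl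
    have h9 : ∑ᶠ P : Place k K, ((((g₁ : ℤ) - 1) * poleOrder x P + (g₂ - 1) * poleOrder y P +
          ∑ j, Pool.Agent.K4H25.VJ.mult x y (a j) (b j) P)) ≤ canDeg k K +
        ∑ᶠ P : Place k K, (if P ∈ Pool.Agent.K4H25.VJ.ovr x y (a i) (b i) then (1 : ℤ) else 0) := h
    rw [h8]
    linarith
  · have h := Pool.Agent.K4H25.VJ.main2 hgen (g := g₁) (g' := g₂) (x := x) (w := w) (y := y)
      (w' := z) ⟨hR₁, hw, hx⟩ ⟨hR₂, hz, hy⟩ hk₁ hk₂ hg
    exact le_trans (Pool.Agent.K4H25.VJ.finsum_mono hf1 hf2 fun P =>
      add_le_add le_rfl (Finset.sum_le_sum fun j _ => hle j P)) h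

end Pool.Agent.Results.MP_79ab39_ag.ProductBlowups
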